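import Pool.Agent.H44.PS.Chain
import Pool.Agent.H44.PS.Words

/-!
# Mixed Poncelet-Steiner closure sequences

The definitions (`Letter`, `Annulus`, `IsElement`, `IsContact`, `Separates`, `IsChain`, `Closes`,
`IsClosureSequence`) are in `Pool.Agent.H44.PS.Defs`.

Every closure sequence is one of `s^n`, `c^n` (`n ≥ 3`), `(cs)^n`, `(sc)^n` (`n ≥ 2`).  For all other
words condition (i) or (ii) fails however the later choices in a chain are resolved.
-/

open Pool.Agent.H44.PS

namespace Pool.Agent.Results.MP_5d9a5f_gt.ClosureWords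

/-- the words `s^n` and `c^n` with `n ≥ 3`, and `(cs)^n` and `(sc)^n` with `n ≥ 2` -/
def Listed (w : List Letter) : Prop :=
  (∃ n, 3 ≤ n ∧ (w = List.replicate n Letter.s ∨ w = List.replicate n Letter.c)) ∨
  (∃ n, 2 ≤ n ∧ (w = (List.replicate n [Letter.c, Letter.s]).flatten ∨
    w = (List.replicate n [Letter.s, Letter.c]).flatten))

/-- Let `w` be a nonempty word that is not of the form `s^n`, `c^n` (`n ≥ 3`), `(cs)^n` or `(sc)^n`
(`n ≥ 2`).  Then `w` is not a closure sequence.  More precisely, either `w` has at most two letters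
and no `w`-chain whatsoever closes (so that (ii) fails), or there are an annulus `a` and two initial
elements `u₁`, `u₂` such that there is a `w`-chain starting with `u₁` and all of them close, and
there is a `w`-chain starting with `u₂` and none of them closes (so that (i) fails, however
the later choices in a chain are resolved). -/
theorem result (w : List Letter) (hw : w ≠ []) (hl : ¬ Listed w) :
    ¬ IsClosureSequence w ∧
    ((w.length ≤ 2 ∧ ∀ (a : Annulus) (u : ℕ → Set ℂ), IsChain a w u → u w.length ≠ u 0) ∨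
      ∃ (a : Annulus) (u₁ u₂ : Set ℂ),
        IsElement a (letter w 0) u₁ ∧ IsElement a (letter w 0) u₂ ∧
        (∃ u, IsChain a w u ∧ u 0 = u₁) ∧
        (∀ u, IsChain a w u → u 0 = u₁ → u w.length = u₁) ∧
        (∃ u, IsChain a w u ∧ u 0 = u₂) ∧
        (∀ u, IsChain a w u → u 0 = u₂ → u w.length ≠ u₂)) := by
  rcases le_or_gt w.length 2 with hn | hn
  · have hshort : ∀ (a : Annulus) (u : ℕ → Set ℂ), IsChain a w u → u w.length ≠ u 0 :=
      fun a u hu => not_closes_short hw hn hu
    refine ⟨?_, Or.inl ⟨hn, hshort⟩⟩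
    rintro ⟨_, a, u₁, u, hu, h0, h1⟩
    exact hshort a u hu (h1.trans h0.symm)
  · have hpat := (word_cases w hn).resolve_left (fun h => hl (Or.inl ⟨_, hn, h⟩))
      |>.resolve_left (fun ⟨m, hm, h⟩ => hl (Or.inr ⟨m, hm, h⟩))
    obtain ⟨a, u₁, u₂, e1, e2, hcl, hall, hex, hnone⟩ := core_geom w hn hpat
    obtain ⟨u, hu, hu0, _⟩ := hcl
    refine ⟨?_, Or.inr ⟨a, u₁, u₂, e1, e2, ⟨u, hu, hu0⟩, hall, hex, hnone⟩⟩
    rintro ⟨h1, _⟩
    obtain ⟨v, hv, hv0, hv1⟩ := h1 a ⟨u₁, u, hu, hu0, hall u hu hu0⟩ u₂ e2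
    exact hnone v hv hv0 hv1

end Pool.Agent.Results.MP_5d9a5f_gt.ClosureWords
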